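import Pool.Agent.H58.Heat.Defs

/-!
HEAT module A2 (contact set): for a solution of the optimality conditions over log-Lipschitz
densities, the two measures agree on the set where the gradient is smaller than `L`.
-/

namespace Pool.Agent.H31.Heat

open MeasureTheory ProbabilityTheory Filter Topology
open Pool.Agent.H58.Heat

variable {n : ℕ}

/-- infimal convolution -/
noncomputable def ic (L : ℝ) (g ξ : E n → ℝ) (δ : ℝ) (x : E n) : ℝ :=
  ⨅ y, (g y + δ * ξ y + L * ‖x - y‖)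

lemma ic_bdd {L : ℝ} {g ξ : E n → ℝ} (hg : Lip L g) (hξ : ∀ y, 0 ≤ ξ y) {δ : ℝ} (hδ : 0 ≤ δ)
    (x : E n) : ∀ y, g x ≤ g y + δ * ξ y + L * ‖x - y‖ := by
  intro y
  have h1 := (abs_le.1 (hg x y)).2
  have h2 := mul_nonneg hδ (hξ y)
  linarith

lemma ic_bddBelow {L : ℝ} {g ξ : E n → ℝ} (hg : Lip L g) (hξ : ∀ y, 0 ≤ ξ y) {δ : ℝ}
    (hδ : 0 ≤ δ) (x : E n) :
    BddBelow (Set.range fun y => g y + δ * ξ y + L * ‖x - y‖) :=
  ⟨g x, by rintro _ ⟨y, rfl⟩; exact ic_bdd hg hξ hδ x y⟩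

lemma le_ic {L : ℝ} {g ξ : E n → ℝ} (hg : Lip L g) (hξ : ∀ y, 0 ≤ ξ y) {δ : ℝ} (hδ : 0 ≤ δ)
    (x : E n) : g x ≤ ic L g ξ δ x :=
  le_ciInf (ic_bdd hg hξ hδ x)

lemma ic_le {L : ℝ} {g ξ : E n → ℝ} (hg : Lip L g) (hξ : ∀ y, 0 ≤ ξ y) {δ : ℝ} (hδ : 0 ≤ δ)
    (x : E n) : ic L g ξ δ x ≤ g x + δ * ξ x := by
  have := ciInf_le (ic_bddBelow hg hξ hδ x) x
  simpa [ic] using this

lemma ic_lip {L : ℝ} (hL : 0 ≤ L) {g ξ : E n → ℝ} (hg : Lip L g) (hξ : ∀ y, 0 ≤ ξ y) {δ : ℝ}
    (hδ : 0 ≤ δ) : Lip L (ic L g ξ δ) := by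
  have key : ∀ x z, ic L g ξ δ x ≤ ic L g ξ δ z + L * ‖x - z‖ := by
    intro x z
    have : ic L g ξ δ x - L * ‖x - z‖ ≤ ic L g ξ δ z := by
      refine le_ciInf fun y => ?_
      have h1 := ciInf_le (ic_bddBelow hg hξ hδ x) y
      have h2 : ‖x - y‖ ≤ ‖x - z‖ + ‖z - y‖ := by
        have := norm_add_le (x - z) (z - y)
        simpa using this
      have h3 := mul_le_mul_of_nonneg_left h2 hL
      have h4 : ic L g ξ δ x ≤ g y + δ * ξ y + L * ‖x - y‖ := h1
      linarith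
    linarith
  intro x z
  rw [abs_le]
  have h1 := key x z
  have h2 := key z x
  rw [norm_sub_rev] at h2
  constructor <;> linarith

lemma Lip.cont {L : ℝ} {g : E n → ℝ} (hg : Lip L g) : Continuous g := by
  have : LipschitzWith (Real.toNNReal L) g := by
    refine LipschitzWith.of_dist_le_mul fun x y => ?_
    rw [Real.dist_eq, dist_eq_norm]
    refine (hg x y).trans ?_
    exact mul_le_mul_of_nonneg_right (Real.le_coe_toNNReal L) (norm_nonneg _)
  exact this.continuous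

/-- lower bound at points of `Un` -/
lemma ic_lower {L : ℝ} {g ξ : E n → ℝ} (hg : Lip L g) {B Λ : ℝ}
    (hξ : ∀ y, 0 ≤ ξ y) (hB : ∀ y, ξ y ≤ B) (hΛ : Lip Λ ξ) {x : E n} (hx : x ∈ Un L g)
    {ε : ℝ} (hε : 0 < ε) :
    ∃ δ₀ > 0, ∀ δ, 0 < δ → δ ≤ δ₀ → g x + δ * (ξ x - ε) ≤ ic L g ξ δ x := by
  obtain ⟨hd, hn⟩ := hx
  -- slope gap
  set η : ℝ := (L - ‖fderiv ℝ g x‖) / 2 with hη
  have hη0 : 0 < η := by rw [hη]; linarith
  have hLη : ‖fderiv ℝ g x‖ + η = L - η := by rw [hη]; ring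
  have h1 := hd.hasFDerivAt.isLittleO
  rw [Asymptotics.isLittleO_iff] at h1
  have h2 := h1 hη0
  rw [Metric.eventually_nhds_iff] at h2
  obtain ⟨s₀, hs₀, h3⟩ := h2
  -- a positive radius
  have hΛ1 : 0 < |Λ| + 1 := by positivity
  set s : ℝ := min (s₀ / 2) (ε / (|Λ| + 1)) with hs
  have hspos : 0 < s := lt_min (by positivity) (by positivity)
  have hs1 : s < s₀ := lt_of_le_of_lt (min_le_left _ _) (by linarith)
  have hs2 : s ≤ ε / (|Λ| + 1) := min_le_right _ _
  have hB0 : 0 ≤ B := (hξ x).trans (hB x)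
  refine ⟨η * s / (B + 1), by positivity, fun δ hδ hδ0 => ?_⟩
  refine le_ciInf fun y => ?_
  by_contra hcon
  push Not at hcon
  have h4 := (abs_le.1 (hg x y)).2
  have h5 : δ * ξ y < δ * (ξ x - ε) := by linarith
  have h6 : ξ y < ξ x - ε := lt_of_mul_lt_mul_left h5 hδ.le
  -- distance from x to y
  have h7 : ε < (|Λ| + 1) * ‖x - y‖ := by
    have h8 := (abs_le.1 (hΛ x y)).2
    have h9 : Λ * ‖x - y‖ ≤ (|Λ| + 1) * ‖x - y‖ :=
      mul_le_mul_of_nonneg_right (by linarith [le_abs_self Λ]) (norm_nonneg _)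
    linarith
  have h8 : s < ‖x - y‖ := by
    refine lt_of_le_of_lt hs2 ?_
    rw [div_lt_iff₀ hΛ1]
    linarith
  have hxy : 0 < ‖x - y‖ := hspos.trans h8
  -- point at distance s from x on the segment
  set x' : E n := x + (s / ‖x - y‖) • (y - x) with hx'
  have hr : 0 < s / ‖x - y‖ := div_pos hspos hxy
  have hr1 : s / ‖x - y‖ < 1 := (div_lt_one hxy).2 h8
  have hd1 : ‖x' - x‖ = s := by
    rw [hx']
    rw [add_sub_cancel_left, norm_smul, Real.norm_of_nonneg hr.le, norm_sub_rev y x]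
    field_simp
  have hd2 : ‖x' - y‖ = ‖x - y‖ - s := by
    have : x' - y = (1 - s / ‖x - y‖) • (x - y) := by
      rw [hx', sub_smul, one_smul, ← neg_sub x y, smul_neg]
      abel
    rw [this, norm_smul, Real.norm_of_nonneg (by linarith)]
    field_simp
  have h9 : dist x' x < s₀ := by rw [dist_eq_norm, hd1]; exact hs1
  have h10 := h3 h9
  rw [hd1, Real.norm_eq_abs] at h10
  have h11 := (abs_le.1 h10).1
  have h12 : |fderiv ℝ g x (x' - x)| ≤ ‖fderiv ℝ g x‖ * s := by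
    have := (fderiv ℝ g x).le_opNorm (x' - x)
    rwa [hd1] at this
  have h13 := (abs_le.1 h12).1
  have h14 := (abs_le.1 (hg x' y)).2
  rw [hd2] at h14
  -- g x' ≤ g y + L (‖x-y‖ - s), and g x' ≥ g x - (L - η) s
  have h15 : g x - (‖fderiv ℝ g x‖ + η) * s ≤ g x' := by
    linarith
  rw [hLη] at h15
  have h16 : η * s < δ * (ξ x - ε - ξ y) := by nlinarith
  have h17 : δ * (ξ x - ε - ξ y) ≤ δ * B := by
    apply mul_le_mul_of_nonneg_left _ hδ.le
    linarith [hB x, hξ y]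
  have h18 : δ * B ≤ η * s / (B + 1) * B := mul_le_mul_of_nonneg_right hδ0 hB0
  have h19 : η * s / (B + 1) * B ≤ η * s := by
    rw [div_mul_eq_mul_div, div_le_iff₀ (by linarith)]
    nlinarith [mul_pos hη0 hspos]
  linarith

lemma measurableSet_Un (L : ℝ) (g : E n → ℝ) : MeasurableSet (Un L g) := by
  have h1 : MeasurableSet {x : E n | DifferentiableAt ℝ g x} :=
    measurableSet_of_differentiableAt ℝ g
  have h2 : MeasurableSet {x : E n | ‖fderiv ℝ g x‖ < L} :=
    measurableSet_lt ((measurable_fderiv ℝ g).norm) measurable_const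
  exact h1.inter h2

/-- one-sided comparison with a bounded Lipschitz test function -/
lemma core_test {L : ℝ} (hL : 0 ≤ L) {g : E n → ℝ} (hg : Lip L g) (ν₁ ν₂ : Measure (E n))
    [IsFiniteMeasure ν₁] [IsFiniteMeasure ν₂]
    (hyp : ∀ h : E n → ℝ, Lip L h → ∫ x, (h x - g x) ∂ν₁ ≤ ∫ x, (h x - g x) ∂ν₂)
    (ξ : E n → ℝ) {B Λ : ℝ} (hξ : ∀ y, 0 ≤ ξ y) (hB : ∀ y, ξ y ≤ B) (hΛ : Lip Λ ξ) :
    ∫⁻ x in Un L g, ENNReal.ofReal (ξ x) ∂ν₁ ≤ ∫⁻ x, ENNReal.ofReal (ξ x) ∂ν₂ := by
  set δ : ℕ → ℝ := fun k => 1 / ((k : ℝ) + 1) with hδdef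
  have hδ : ∀ k, 0 < δ k := fun k => by simp only [hδdef]; positivity
  have hδl : Tendsto δ atTop (𝓝 0) := tendsto_one_div_add_atTop_nhds_zero_nat
  set w : ℕ → E n → ℝ := fun k x => (ic L g ξ (δ k) x - g x) / δ k with hw
  have hw0 : ∀ k x, 0 ≤ w k x := fun k x =>
    div_nonneg (by linarith [le_ic hg hξ (hδ k).le x]) (hδ k).le
  have hw1 : ∀ k x, w k x ≤ ξ x := fun k x => by
    simp only [hw]
    rw [div_le_iff₀ (hδ k)]
    linarith [ic_le hg hξ (hδ k).le x]
  have hgc := Lip.cont hg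
  have hξc := Lip.cont hΛ
  have hwc : ∀ k, Continuous (w k) := fun k =>
    ((Lip.cont (ic_lip hL hg hξ (hδ k).le)).sub hgc).div_const _
  have hB0 : 0 ≤ B := (hξ 0).trans (hB 0)
  have hint : ∀ (ν : Measure (E n)) [IsFiniteMeasure ν] (k : ℕ), Integrable (w k) ν := by
    intro ν _ k
    refine Integrable.of_bound (hwc k).aestronglyMeasurable B (ae_of_all _ fun x => ?_)
    rw [Real.norm_of_nonneg (hw0 k x)]
    exact (hw1 k x).trans (hB x)
  have hintξ : ∀ (ν : Measure (E n)) [IsFiniteMeasure ν], Integrable ξ ν := by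
    intro ν _
    refine Integrable.of_bound hξc.aestronglyMeasurable B (ae_of_all _ fun x => ?_)
    rw [Real.norm_of_nonneg (hξ x)]
    exact hB x
  -- bound for each k
  have hk : ∀ k, ∫⁻ x in Un L g, ENNReal.ofReal (w k x) ∂ν₁ ≤ ∫⁻ x, ENNReal.ofReal (ξ x) ∂ν₂ := by
    intro k
    refine (setLIntegral_le_lintegral _ _).trans ?_
    rw [← ofReal_integral_eq_lintegral_ofReal (hint ν₁ k) (ae_of_all _ (hw0 k)),
      ← ofReal_integral_eq_lintegral_ofReal (hintξ ν₂) (ae_of_all _ hξ)]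
    apply ENNReal.ofReal_le_ofReal
    have h1 : ∫ x, w k x ∂ν₁ ≤ ∫ x, w k x ∂ν₂ := by
      simp only [hw]
      rw [integral_div, integral_div]
      exact div_le_div_of_nonneg_right (hyp _ (ic_lip hL hg hξ (hδ k).le)) (hδ k).le
    exact h1.trans (integral_mono (hint ν₂ k) (hintξ ν₂) (hw1 k))
  -- Fatou
  have hlim : ∀ x ∈ Un L g, Tendsto (fun k => w k x) atTop (𝓝 (ξ x)) := by
    intro x hx
    rw [Metric.tendsto_atTop]
    intro ε hε
    obtain ⟨δ₀, hδ₀, h1⟩ := ic_lower hg hξ hB hΛ hx (half_pos hε)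
    have h2 := (Metric.tendsto_atTop.1 hδl) δ₀ hδ₀
    obtain ⟨N, hN⟩ := h2
    refine ⟨N, fun k hkN => ?_⟩
    have h3 := hN k hkN
    rw [Real.dist_eq, sub_zero, abs_of_pos (hδ k)] at h3
    have h4 := h1 (δ k) (hδ k) h3.le
    have h5 : ξ x - ε / 2 ≤ w k x := by
      simp only [hw]
      rw [le_div_iff₀ (hδ k)]
      linarith
    rw [Real.dist_eq, abs_lt]
    constructor <;> linarith [hw1 k x]
  calc ∫⁻ x in Un L g, ENNReal.ofReal (ξ x) ∂ν₁
      = ∫⁻ x in Un L g, liminf (fun k => ENNReal.ofReal (w k x)) atTop ∂ν₁ := by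
        refine setLIntegral_congr_fun (measurableSet_Un L g) fun x hx => ?_
        exact ((ENNReal.tendsto_ofReal (hlim x hx)).liminf_eq).symm
    _ ≤ liminf (fun k => ∫⁻ x in Un L g, ENNReal.ofReal (w k x) ∂ν₁) atTop :=
        lintegral_liminf_le fun k => (hwc k).measurable.ennreal_ofReal
    _ ≤ ∫⁻ x, ENNReal.ofReal (ξ x) ∂ν₂ := by
        refine liminf_le_of_le (by isBoundedDefault) fun b hb => ?_
        obtain ⟨k, hk'⟩ := hb.exists
        exact hk'.trans (hk k)

/-- comparison of measures on the contact set -/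
lemma core {L : ℝ} (hL : 0 ≤ L) {g : E n → ℝ} (hg : Lip L g) (ν₁ ν₂ : Measure (E n))
    [IsFiniteMeasure ν₁] [IsFiniteMeasure ν₂]
    (hyp : ∀ h : E n → ℝ, Lip L h → ∫ x, (h x - g x) ∂ν₁ ≤ ∫ x, (h x - g x) ∂ν₂) :
    ν₁.restrict (Un L g) ≤ ν₂ := by
  -- closed sets
  have hcl : ∀ F : Set (E n), IsClosed F → ν₁.restrict (Un L g) F ≤ ν₂ F := by
    intro F hF
    have hpos : ∀ k : ℕ, (0 : ℝ) < 1 / ((k : ℝ) + 1) := fun k => by positivity
    have hl := tendsto_one_div_add_atTop_nhds_zero_nat (𝕜 := ℝ)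
    have t1 := tendsto_lintegral_thickenedIndicator_of_isClosed (ν₁.restrict (Un L g)) hF hpos hl
    have t2 := tendsto_lintegral_thickenedIndicator_of_isClosed ν₂ hF hpos hl
    refine le_of_tendsto_of_tendsto' t1 t2 fun k => ?_
    have h := core_test hL hg ν₁ ν₂ hyp (fun x => (thickenedIndicator (hpos k) F x : ℝ))
      (B := 1) (Λ := (Real.toNNReal (1 / ((k : ℝ) + 1)))⁻¹) (fun y => NNReal.coe_nonneg _)
      (fun y => by exact_mod_cast thickenedIndicator_le_one (hpos k) F y)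
      (by
        intro x y
        have h := (lipschitzWith_thickenedIndicator (hpos k) F).dist_le_mul x y
        rw [dist_eq_norm x y] at h
        rw [NNReal.dist_eq] at h
        simpa using h)
    simpa using h
  refine Measure.le_iff.2 fun s hs => ?_
  rw [hs.measure_eq_iSup_isClosed_of_ne_top (measure_ne_top _ _)]
  refine iSup₂_le fun K hK => iSup_le fun hKc => ?_
  exact (hcl K hKc).trans (measure_mono hK)

theorem A2 {n : ℕ} (ρ : Measure (E n)) [IsProbabilityMeasure ρ]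
    (hρ : Integrable (fun x => ‖x‖) ρ) (L : ℝ) (hL : 0 ≤ L) (g : E n → ℝ) (hg : KKT ρ L g) :
    ρ.restrict (Un L g) ≤ (gm n).withDensity (fun x => ENNReal.ofReal (Real.exp (g x))) ∧
      ((gm n).withDensity (fun x => ENNReal.ofReal (Real.exp (g x)))).restrict (Un L g) ≤ ρ := by
  obtain ⟨hlip, hone, hkkt⟩ := hg
  have hgc := Lip.cont hlip
  have hint : Integrable (fun x => Real.exp (g x)) (gm n) := by
    by_contra hcon
    rw [integral_undef hcon] at hone
    exact zero_ne_one hone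
  have hfin : IsFiniteMeasure
      ((gm n).withDensity (fun x => ENNReal.ofReal (Real.exp (g x)))) :=
    isFiniteMeasure_withDensity_ofReal hint.2
  have hμ : ∀ φ : E n → ℝ,
      ∫ x, φ x ∂((gm n).withDensity (fun x => ENNReal.ofReal (Real.exp (g x)))) =
        ∫ x, φ x * Real.exp (g x) ∂gm n := by
    intro φ
    have hme : Measurable fun x => ENNReal.ofReal (Real.exp (g x)) :=
      (Real.continuous_exp.comp hgc).measurable.ennreal_ofReal
    rw [integral_withDensity_eq_integral_toReal_smul hme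
      (ae_of_all _ fun x => ENNReal.ofReal_lt_top)]
    refine integral_congr_ae (ae_of_all _ fun x => ?_)
    simp only [smul_eq_mul]
    rw [ENNReal.toReal_ofReal (Real.exp_pos _).le, mul_comm]
  constructor
  · refine core hL hlip _ _ fun h hh => ?_
    rw [hμ]
    exact hkkt h hh
  · have hneg : Un L (fun x => - g x) = Un L g := by
      ext x
      simp only [Un, Set.mem_ofPred_eq]
      have h1 : DifferentiableAt ℝ (fun x => - g x) x ↔ DifferentiableAt ℝ g x :=
        differentiableAt_fun_neg_iff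
      have h2 : fderiv ℝ (fun x => - g x) x = - fderiv ℝ g x := fderiv_fun_neg
      rw [h1, h2, norm_neg]
    have hlip' : Lip L (fun x => - g x) := by
      intro x y
      have := hlip x y
      rw [← abs_neg]
      convert this using 2
      ring
    have := core hL hlip' ((gm n).withDensity (fun x => ENNReal.ofReal (Real.exp (g x)))) ρ ?_
    · rwa [hneg] at this
    · intro h hh
      have hh' : Lip L (fun x => - h x) := by
        intro x y
        have := hh x y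
        rw [← abs_neg]
        convert this using 2
        ring
      have h1 := hkkt _ hh'
      rw [← hμ] at h1
      have e1 : ∀ ν : Measure (E n), ∫ x, (- h x - g x) ∂ν = - ∫ x, (h x - - g x) ∂ν := by
        intro ν
        rw [← integral_neg]
        refine integral_congr_ae (ae_of_all _ fun x => ?_)
        simp only
        ring
      rw [e1, e1] at h1
      linarith

end Pool.Agent.H31.Heat
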